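import Pool.Agent.Lib.MP_be1941_al.X.TopH

/-!
# MP_be1941_al: Huppert's inequality `|ρ(G)| ≤ 2 σ(G)` for all finite solvable groups

`ρ(G)` is the set of primes dividing the degree of some irreducible complex representation of `G`,
`σ(G)` the maximal number of primes dividing one such degree. For every finite solvable group `G`
and every set `Θ` there is one irreducible representation `V` such that at least half of the primes of
`ρ(G)` which are in `Θ` divide the degree of `V`. For `Θ = Set.univ`: `|ρ(G)| ≤ 2 ω(dim V) ≤ 2 σ(G)`.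
-/

set_option autoImplicit false

namespace Pool.Agent.Results.MP_be1941_al.TwoSigma

open Pool.Agent.Lib.MPbe1941

/-- Huppert's inequality `|ρ(G)| ≤ 2 σ(G)` for every finite solvable group, relative to an arbitrary
set of primes. -/
theorem result (G : Type) [Group G] [Finite G] (hG : Group.IsSolvable G) (Θ : Set ℕ) :
    {p : ℕ | p.Prime ∧ ∃ W : FDRep ℂ G, CategoryTheory.Simple W ∧
        p ∣ Module.finrank ℂ W}.Finite ∧
    ∃ V : FDRep ℂ G, CategoryTheory.Simple V ∧
      {p : ℕ | p ∈ Θ ∧ p.Prime ∧ ∃ W : FDRep ℂ G, CategoryTheory.Simple W ∧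
          p ∣ Module.finrank ℂ W}.ncard
        ≤ 2 * {p : ℕ | p ∈ Θ ∧ p.Prime ∧ p ∣ Module.finrank ℂ V}.ncard :=
  ⟨X.TopD.rho_finite G, X.TopD.hupTheta G hG Θ⟩

end Pool.Agent.Results.MP_be1941_al.TwoSigma
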